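import Pool.Agent.Helper627_Rae.C2z

set_option autoImplicit false

/-! The statement (C2). -/

namespace Pool.Agent.Helper627_Rae

open Pool.Agent.TH62.PL Pool.Agent.Helper867_Rae

/-- the elements acting trivially on `E / N` -/
def Mb {X : Type} [Group X] (E N : Subgroup X) (hE : E.Normal) (hN : N ≤ E) : Subgroup X where
  carrier := {x | ∀ e ∈ E, x * e * x⁻¹ * e⁻¹ ∈ N}
  one_mem' := by
    intro e _
    have : (1 : X) * e * 1⁻¹ * e⁻¹ = 1 := by group
    rw [this]; exact N.one_mem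
  mul_mem' := by
    intro a b ha hb e he
    have h1 := hb e he
    have h2 := ha _ (hN h1)
    have h3 := ha e he
    have e1 : a * b * e * (a * b)⁻¹ * e⁻¹ =
        (a * (b * e * b⁻¹ * e⁻¹) * a⁻¹ * (b * e * b⁻¹ * e⁻¹)⁻¹) * (b * e * b⁻¹ * e⁻¹) *
          (a * e * a⁻¹ * e⁻¹) := by group
    rw [e1]
    exact N.mul_mem (N.mul_mem h2 h1) h3
  inv_mem' := by
    intro a ha e he
    have h0 : a⁻¹ * e * a ∈ E := by
      have := hE.conj_mem e he a⁻¹
      rwa [inv_inv] at this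
    have h1 := N.inv_mem (ha _ h0)
    have e1 : a⁻¹ * e * a⁻¹⁻¹ * e⁻¹ = (a * (a⁻¹ * e * a) * a⁻¹ * (a⁻¹ * e * a)⁻¹)⁻¹ := by group
    rw [e1]; exact h1

theorem Mb_normal {X : Type} [Group X] {E N : Subgroup X} (hE : E.Normal) (hNE : N ≤ E)
    (hN : N.Normal) : (Mb E N hE hNE).Normal := by
  refine ⟨fun x hx g e he => ?_⟩
  have h0 : g⁻¹ * e * g ∈ E := by
    have := hE.conj_mem e he g⁻¹
    rwa [inv_inv] at this
  have h1 := hN.conj_mem _ (hx _ h0) g
  have e1 : g * x * g⁻¹ * e * (g * x * g⁻¹)⁻¹ * e⁻¹ =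
      g * (x * (g⁻¹ * e * g) * x⁻¹ * (g⁻¹ * e * g)⁻¹) * g⁻¹ := by group
  rw [e1]; exact h1

/-- a minimal non-central situation: the prime `r` -/
theorem exists_r {X : Type} [Group X] [Finite X] {E Z0 : Subgroup X} (hE : E.Normal)
    (hZ : Z0.Normal) (hZE : Z0 ≤ E) (hne : Z0 ≠ E)
    (hmin : ∀ E' : Subgroup X, E'.Normal → E' ≤ E → E' ≠ E → E' ≤ Z0)
    (hcomm : ∀ x ∈ E, ∀ y ∈ E, x * y * x⁻¹ * y⁻¹ ∈ Z0) :
    ∃ r : ℕ, r.Prime ∧ ∀ x ∈ E, x ^ r ∈ Z0 := by
  classical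
  obtain ⟨x, hx, hxZ⟩ : ∃ x ∈ E, x ∉ Z0 := by
    by_contra hcon
    push Not at hcon
    exact hne (le_antisymm hZE hcon)
  have hex : ∃ n : ℕ, 0 < n ∧ x ^ n ∈ Z0 :=
    ⟨orderOf x, orderOf_pos x, by rw [pow_orderOf_eq_one]; exact Z0.one_mem⟩
  set n := Nat.find hex with hn
  obtain ⟨hn0, hnZ⟩ := Nat.find_spec hex
  have hn1 : n ≠ 1 := by
    intro h1
    rw [← hn, h1, pow_one] at hnZ
    exact hxZ hnZ
  set r := n.minFac with hr
  have hrp : r.Prime := Nat.minFac_prime hn1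
  have hrn : r ∣ n := Nat.minFac_dvd n
  set y := x ^ (n / r) with hy
  have hyE : y ∈ E := E.pow_mem hx _
  have hyZ : y ∉ Z0 := by
    intro h
    have h1 : 0 < n / r := Nat.div_pos (Nat.le_of_dvd hn0 hrn) hrp.pos
    have h2 : n / r < n := Nat.div_lt_self hn0 hrp.one_lt
    exact Nat.find_min hex h2 ⟨h1, h⟩
  have hyr : y ^ r ∈ Z0 := by
    rw [hy, ← pow_mul, Nat.div_mul_cancel hrn]
    exact hnZ
  have hmk : ∀ a ∈ E, ∀ b ∈ E, (QuotientGroup.mk' Z0) a * (QuotientGroup.mk' Z0) b =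
      (QuotientGroup.mk' Z0) b * (QuotientGroup.mk' Z0) a := by
    intro a ha b hb
    have h1 : (QuotientGroup.mk' Z0) (a * b * a⁻¹ * b⁻¹) = 1 :=
      (QuotientGroup.eq_one_iff _).2 (hcomm a ha b hb)
    have h2 : a * b = (a * b * a⁻¹ * b⁻¹) * (b * a) := by group
    rw [← map_mul, h2, map_mul, h1, one_mul, map_mul]
  let E' : Subgroup X :=
    { carrier := {a | a ∈ E ∧ a ^ r ∈ Z0}
      one_mem' := ⟨E.one_mem, by rw [one_pow]; exact Z0.one_mem⟩
      mul_mem' := by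
        rintro a b ⟨ha, ha'⟩ ⟨hb, hb'⟩
        refine ⟨E.mul_mem ha hb, ?_⟩
        rw [← QuotientGroup.eq_one_iff]
        change (QuotientGroup.mk' Z0) ((a * b) ^ r) = 1
        have hc : Commute ((QuotientGroup.mk' Z0) a) ((QuotientGroup.mk' Z0) b) := hmk a ha b hb
        rw [map_pow, map_mul, hc.mul_pow, ← map_pow, ← map_pow]
        have h1 : (QuotientGroup.mk' Z0) (a ^ r) = 1 := (QuotientGroup.eq_one_iff _).2 ha'
        have h2 : (QuotientGroup.mk' Z0) (b ^ r) = 1 := (QuotientGroup.eq_one_iff _).2 hb'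
        rw [h1, h2, one_mul]
      inv_mem' := by
        rintro a ⟨ha, ha'⟩
        exact ⟨E.inv_mem ha, by rw [inv_pow]; exact Z0.inv_mem ha'⟩ }
  have hE'n : E'.Normal := ⟨by
    rintro a ⟨ha, ha'⟩ g
    exact ⟨hE.conj_mem a ha g, by rw [conj_pow]; exact hZ.conj_mem _ ha' g⟩⟩
  have hE'E : E' = E := by
    by_contra hne'
    exact hyZ (hmin E' hE'n (fun a ha => ha.1) hne' ⟨hyE, hyr⟩)
  refine ⟨r, hrp, fun a ha => ?_⟩
  rw [← hE'E] at ha
  exact ha.2

/-- the order of `E` is prime to `q` -/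
theorem card_E {q : ℕ} [hq : Fact q.Prime] {X : Type} [Group X] [Finite X]
    {E Z0 : Subgroup X}
    (hcen : ∀ z ∈ Z0, ∀ e ∈ E, z * e = e * z) (hqZ : ¬ q ∣ Nat.card Z0)
    (hcomm : ∀ x ∈ E, ∀ y ∈ E, x * y * x⁻¹ * y⁻¹ ∈ Z0)
    (hnab : ¬ ∀ x ∈ E, ∀ y ∈ E, x * y = y * x) {r : ℕ} (hr : r.Prime)
    (hpow : ∀ x ∈ E, x ^ r ∈ Z0) : ¬ q ∣ Nat.card E := by
  -- elements of `Z0` of order dividing `q` are trivial
  have hZq : ∀ c ∈ Z0, c ^ q = 1 → c = 1 := by
    intro c hc hcq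
    have h1 : (⟨c, hc⟩ : Z0) ^ q = 1 := Subtype.ext (by simpa using hcq)
    have h2 : orderOf (⟨c, hc⟩ : Z0) ∣ q := orderOf_dvd_of_pow_eq_one h1
    rcases (Nat.dvd_prime hq.out).1 h2 with h3 | h3
    · have := orderOf_eq_one_iff.1 h3
      exact congrArg Subtype.val this
    · exfalso
      apply hqZ
      rw [← h3]
      exact orderOf_dvd_natCard _
  have hrq : r ≠ q := by
    rintro rfl
    apply hnab
    intro x hx y hy
    have hc := hcomm x hx y hy
    have h1 : (x * y * x⁻¹ * y⁻¹) * y = x * y * x⁻¹ := by group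
    have h2 : ((x * y * x⁻¹ * y⁻¹) * y) ^ r = y ^ r := by
      rw [h1, conj_pow, ← hcen _ (hpow y hy) x hx, mul_inv_cancel_right]
    have h3 : Commute (x * y * x⁻¹ * y⁻¹) y := hcen _ hc y hy
    rw [h3.mul_pow] at h2
    have h4 : (x * y * x⁻¹ * y⁻¹) ^ r = 1 := mul_eq_right.1 h2
    have h5 := hZq _ hc h4
    calc x * y = (x * y * x⁻¹ * y⁻¹) * (y * x) := by group
      _ = y * x := by rw [h5, one_mul]
  intro hdvd
  obtain ⟨x, hx⟩ := exists_prime_orderOf_dvd_card' q hdvd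
  have hx1 : (x : X) ^ q = 1 := by
    have h3 : x ^ q = 1 := by rw [← hx]; exact pow_orderOf_eq_one x
    have := congrArg Subtype.val h3
    simpa using this
  have h1 : ((x : X) ^ r) ^ q = 1 := by rw [← pow_mul, mul_comm, pow_mul, hx1, one_pow]
  have h2 := hZq _ (hpow x x.2) h1
  have h3 : x ^ r = 1 := Subtype.ext (by simpa using h2)
  have h4 : orderOf x ∣ r := orderOf_dvd_of_pow_eq_one h3
  rw [hx] at h4
  exact hrq ((Nat.prime_dvd_prime_iff_eq hq.out hr).1 h4).symm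

/-- (5c): the centraliser of a minimal normal subgroup outside `N` -/
theorem cent_E (hD : S_D) {p q l d1 c3 : ℕ} [hp : Fact p.Prime] [hq : Fact q.Prime] (hpq : p ≠ q)
    (hC1 : ∀ (X : Type) [Group X] [Finite X], Group.IsSolvable X →
      ∀ (P K : Subgroup X), UQ p P → Nat.card P ≤ p ^ (l + 1) →
      (∀ g : X, ∃ x ∈ P, x ≠ 1 ∧ g⁻¹ * x * g ∈ K) → LM p d1 K)
    (hB : ∀ (X : Type) [Group X] [Finite X], Group.IsSolvable X →
      ∀ (r : ℕ) (H M N : Subgroup X), r.Prime → N ≤ M → Inv H M → Inv H N →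
      (∀ x ∈ M, ∀ y ∈ M, x * y * x⁻¹ * y⁻¹ ∈ N) → (∀ x ∈ M, x ^ r ∈ N) →
      ∀ Y : Subgroup X, Y = Subgroup.closure {y : X | y ∈ H ∧ Sm M N y (p ^ (2 * l + 2))} →
      ∀ W : Subgroup Y, (∀ y : Y, (∀ m ∈ M, (y : X) * m * (y : X)⁻¹ * m⁻¹ ∈ N) → y ∈ W) →
        LM p c3 W)
    {k X V : Type} [Field k] [IsAlgClosed k] [CharP k q] [Group X] [Finite X] [AddCommGroup V]
    [Module k V] [FiniteDimensional k V] (ρ : X →* Module.End k V) (P : Subgroup X)
    (hX : Group.IsSolvable X) (hinj : Function.Injective ρ)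
    (hO : ∀ N : Subgroup X, N.Normal → IsPGroup q N → N = ⊥) (hP : UQ p P)
    (hcard : Nat.card P ≤ p ^ (l + 1)) (hfix : ∀ v : V, (∀ x ∈ P, ρ x v = v) → v = 0)
    {E Z0 : Subgroup X} (hE : E.Normal) (hZ : Z0.Normal) (hZE : Z0 ≤ E) (hne : Z0 ≠ E)
    (hcen : ∀ z ∈ Z0, ∀ e ∈ E, z * e = e * z)
    (hmin : ∀ E' : Subgroup X, E'.Normal → E' ≤ E → E' ≠ E → E' ≤ Z0) :
    LM p (1 + (c3 + d1)) (Subgroup.centralizer (E : Set X)) := by
  classical
  have h5a : ∀ A : Subgroup X, A.Normal → (∀ a ∈ A, ∀ b ∈ A, a * b = b * a) →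
      LM p d1 (Subgroup.centralizer (A : Set X)) := fun A hA hab =>
    c2a p l d1 q hC1 k X V ρ P A hpq hX hinj hO hP hcard hfix hA hab
  by_cases hab : ∀ x ∈ E, ∀ y ∈ E, x * y = y * x
  · exact (h5a E hE hab).mono_n (by omega)
  have hZab : ∀ x ∈ Z0, ∀ y ∈ Z0, x * y = y * x := fun x hx y hy => hcen x hx y (hZE hy)
  -- commutators lie in `Z0`
  have hE0 : E ≠ ⊥ := by
    intro h
    apply hne
    rw [h] at hZE
    rw [h, le_bot_iff.1 hZE]
  have hcomm : ∀ x ∈ E, ∀ y ∈ E, x * y * x⁻¹ * y⁻¹ ∈ Z0 := by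
    have h1 : ⁅E, E⁆ < E := Group.IsSolvable.commutator_lt_of_ne_bot hE0
    have h2 : ⁅E, E⁆ ≤ Z0 := hmin _ inferInstance h1.le h1.ne
    intro x hx y hy
    exact h2 (Subgroup.commutator_mem_commutator hx hy)
  obtain ⟨r, hr, hpow⟩ := exists_r hE hZ hZE hne hmin hcomm
  have hqZ : ¬ q ∣ Nat.card Z0 := abel_card_ne hO hZ hZab
  have hqE := card_E hcen hqZ hcomm hab hr hpow
  have hcardE : ((Nat.card E : ℕ) : k) ≠ 0 := by
    rw [Ne, CharP.cast_eq_zero_iff k q]; exact hqE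
  obtain ⟨El, μ, v, hElE, hElne, hZEl, hmem, hμ0, hμm, hv0, hv⟩ :=
    exists_weight ρ hinj hZ hZE hcen hcomm hab hcardE
  have hcardEl : ((Nat.card El : ℕ) : k) ≠ 0 := by
    intro h
    apply hcardE
    obtain ⟨m, hm⟩ := Subgroup.card_dvd_of_le hElE
    rw [hm, Nat.cast_mul, h, zero_mul]
  have hWD : WD E Z0 El μ := ⟨hE, hZ, hZE, hcen, hcomm, hElE, hZEl, hmem, hμ0, hμm, hcardEl⟩
  have hf : idm ρ El μ ≠ 0 := by
    intro h
    apply hv0
    rw [← idm_apply (ρ := ρ) hcardEl hμ0 hv, h]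
    rfl
  set K : Subgroup X := Subgroup.closure
    {y : X | y ∈ St ρ (idm ρ El μ) ∧ Sm E El y (p ^ (2 * l + 2))} with hK
  have hLK : LM p d1 K := hC1 X hX P K hP hcard fun g =>
    hyp_C1 hD hpq ρ hWD hf hcardE P hP.1 hcard hfix g
  have hM : LM p c3 ((Mb E El hE hElE).subgroupOf K) := by
    refine hB X hX r (St ρ (idm ρ El μ)) E El hr hElE ?_ ?_
      (fun x hx y hy => hZEl (hcomm x hx y hy)) (fun x hx => hZEl (hpow x hx)) K rfl _ ?_
    · intro g _ x hx
      exact hE.conj_mem x hx g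
    · intro g hg x hx
      refine hWD.of_scalar hf (hE.conj_mem x (hElE hx) g) (a := μ x) ?_
      have hgf := mem_St.1 hg
      have hgf' := mem_St.1 ((St ρ (idm ρ El μ)).inv_mem hg)
      rw [map_mul, map_mul, mul_assoc, hgf', ← mul_assoc, mul_assoc (ρ g),
        rho_mul_idm hμ0 hμm x hx, mul_smul_comm, smul_mul_assoc, hgf, mul_assoc, ← map_mul,
        mul_inv_cancel, map_one, mul_one]
    · intro y hy
      exact hy
  have h1 : LM p c3 ((Mb E El hE hElE).subgroupOf K.normalCore) :=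
    LM.sub (Subgroup.normalCore_le K) hM
  have h2 : LM p (c3 + d1) ((Mb E El hE hElE) ⊓ K.normalCore) :=
    LM.ext inferInstance h1 hLK.normalCore
  have h3 := h2.normalCore
  -- the core of `El` lies in `Z0`
  have h4 : El.normalCore ≤ Z0 := by
    refine hmin _ inferInstance ((Subgroup.normalCore_le _).trans hElE) ?_
    intro h
    apply hElne
    exact le_antisymm hElE (h ▸ Subgroup.normalCore_le El)
  have h5 : ((Mb E El hE hElE) ⊓ K.normalCore).normalCore ≤ Mb E Z0 hE hZE := by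
    intro x hx e he
    apply h4
    intro g
    have h6 := (hx g).1 (g * e * g⁻¹) (hE.conj_mem e he g)
    have e1 : g * x * g⁻¹ * (g * e * g⁻¹) * (g * x * g⁻¹)⁻¹ * (g * e * g⁻¹)⁻¹ =
        g * (x * e * x⁻¹ * e⁻¹) * g⁻¹ := by group
    rw [e1] at h6
    exact h6
  set M2 : Subgroup X := Mb E Z0 hE hZE ⊓ Subgroup.centralizer (Z0 : Set X) with hM2
  have hM2n : M2.Normal := by
    have := Mb_normal hE hZE hZ
    have : (Subgroup.centralizer (Z0 : Set X)).Normal := by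
      refine ⟨fun x hx g => ?_⟩
      rw [Subgroup.mem_centralizer_iff] at hx ⊢
      intro z hz
      have h6 : g⁻¹ * z * g ∈ Z0 := by
        have := hZ.conj_mem z hz g⁻¹
        rwa [inv_inv] at this
      have h7 := hx _ h6
      calc z * (g * x * g⁻¹) = g * ((g⁻¹ * z * g) * x) * g⁻¹ := by group
        _ = g * (x * (g⁻¹ * z * g)) * g⁻¹ := by rw [h7]
        _ = g * x * g⁻¹ * z := by group
    rw [hM2]; infer_instance
  have h6 : LM p (c3 + d1) M2 :=
    ((h3.mono h5).inf ((h5a Z0 hZ hZab).mono_n (by omega)))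
  have h7 : LM p 1 ((Subgroup.centralizer (E : Set X)).subgroupOf M2) := by
    refine LM.of_comm fun x y => ?_
    rw [Subgroup.mem_subgroupOf, Subgroup.mem_centralizer_iff]
    intro e' he'
    have hx := x.2.1
    have hy := y.2.1
    have hxZ := Subgroup.mem_centralizer_iff.1 x.2.2
    have hyZ := Subgroup.mem_centralizer_iff.1 y.2.2
    set a : X := (x : X) with ha
    set b : X := (y : X) with hb
    -- `e = (b a)⁻¹ e' (b a)`
    set e : X := (b * a)⁻¹ * e' * (b * a) with hee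
    have heE : e ∈ E := by
      have := hE.conj_mem e' he' (b * a)⁻¹
      rwa [inv_inv] at this
    have c1 : a * e * a⁻¹ * e⁻¹ ∈ Z0 := hx e heE
    have c2 : b * e * b⁻¹ * e⁻¹ ∈ Z0 := hy e heE
    -- both products conjugate `e` to the same element
    have k1 : (a * b) * e * (a * b)⁻¹ = (b * e * b⁻¹ * e⁻¹) * (a * e * a⁻¹ * e⁻¹) * e := by
      have h8 := hxZ _ c2
      calc (a * b) * e * (a * b)⁻¹ = a * (b * e * b⁻¹ * e⁻¹) * (e * a⁻¹) := by group
        _ = (b * e * b⁻¹ * e⁻¹) * a * (e * a⁻¹) := by rw [h8]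
        _ = _ := by group
    have k2 : (b * a) * e * (b * a)⁻¹ = (a * e * a⁻¹ * e⁻¹) * (b * e * b⁻¹ * e⁻¹) * e := by
      have h8 := hyZ _ c1
      calc (b * a) * e * (b * a)⁻¹ = b * (a * e * a⁻¹ * e⁻¹) * (e * b⁻¹) := by group
        _ = (a * e * a⁻¹ * e⁻¹) * b * (e * b⁻¹) := by rw [h8]
        _ = _ := by group
    rw [hZab _ c2 _ c1, ← k2] at k1
    have k3 : (b * a) * e * (b * a)⁻¹ = e' := by rw [hee]; group
    rw [k3] at k1
    have k4 : ((x * y * x⁻¹ * y⁻¹ : M2) : X) = (a * b) * (b * a)⁻¹ := by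
      push_cast
      rw [ha, hb]; group
    rw [k4]
    calc e' * (a * b * (b * a)⁻¹) = (a * b) * e * (a * b)⁻¹ * (a * b * (b * a)⁻¹) := by rw [k1]
      _ = a * b * (e * (b * a)⁻¹) := by group
      _ = a * b * (b * a)⁻¹ * e' := by rw [hee]; group
  exact (LM.ext hM2n h7 h6).mono inf_le_left

/-- (C2) -/
theorem c2 (hC1 : S_C1) (hB : S_B) (hD : S_D) : S_C2 := by
  intro p l c0 hp hBd
  obtain ⟨d1, hd1⟩ := hC1 p l c0 hBd
  obtain ⟨c3, hc3⟩ := hB p (p ^ (2 * l + 2))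
  refine ⟨1 + (1 + (c3 + d1)), ?_⟩
  intro q hq k X V _ _ _ _ _ _ _ _ ρ P hpq hX hinj hO hP hcard hfix
  classical
  obtain ⟨N, hN⟩ := Set.Finite.exists_maximal
    (Set.toFinite {N : Subgroup X | N.Normal ∧
      LM p (1 + (c3 + d1)) (Subgroup.centralizer (N : Set X))}) ⟨⊥, inferInstance, by
        refine (LM.top (p := p) _).mono ?_
        intro x _
        rw [Subgroup.mem_centralizer_iff]
        intro y hy
        have : y = 1 := hy
        rw [this, one_mul, mul_one]⟩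
  obtain ⟨hNn, hNL⟩ := hN.1
  set C : Subgroup X := Subgroup.centralizer (N : Set X) with hC
  have hCn : C.Normal := by
    refine ⟨fun x hx g => ?_⟩
    rw [hC, Subgroup.mem_centralizer_iff] at hx ⊢
    intro z hz
    have h6 : g⁻¹ * z * g ∈ N := by
      have := hNn.conj_mem z hz g⁻¹
      rwa [inv_inv] at this
    have h7 := hx _ h6
    calc z * (g * x * g⁻¹) = g * ((g⁻¹ * z * g) * x) * g⁻¹ := by group
      _ = g * (x * (g⁻¹ * z * g)) * g⁻¹ := by rw [h7]
      _ = g * x * g⁻¹ * z := by group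
  by_cases hCN : C ≤ N
  · have h1 : LM p 1 ((⊥ : Subgroup X).subgroupOf C) := by
      refine LM.of_comm fun x y => ?_
      rw [Subgroup.mem_subgroupOf, Subgroup.mem_bot]
      have h2 : (x : X) * y = y * x := Subgroup.mem_centralizer_iff.1 y.2 x (hCN x.2)
      push_cast
      rw [h2]; group
    exact (LM.ext hCn h1 hNL).mono inf_le_left
  · obtain ⟨E, hE⟩ := Set.Finite.exists_minimal
      (Set.toFinite {E : Subgroup X | E.Normal ∧ E ≤ C ∧ ¬ E ≤ N}) ⟨C, hCn, le_rfl, hCN⟩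
    obtain ⟨hEn, hEC, hEN⟩ := hE.1
    have hmin : ∀ E' : Subgroup X, E'.Normal → E' ≤ E → E' ≠ E → E' ≤ E ⊓ N := by
      intro E' h1 h2 h3
      refine le_inf h2 ?_
      by_contra h4
      exact h3 (le_antisymm h2 (hE.2 ⟨h1, h2.trans hEC, h4⟩ h2))
    have hcE := cent_E hD hpq hd1 hc3 ρ P hX hinj hO hP hcard hfix hEn
      (Z0 := E ⊓ N) inferInstance inf_le_left (by
        intro h
        exact hEN (h ▸ inf_le_right)) (by
        intro z hz e he
        exact Subgroup.mem_centralizer_iff.1 (hEC he) z hz.2) hmin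
    exfalso
    have h1 : LM p (1 + (c3 + d1)) (Subgroup.centralizer ((N ⊔ E : Subgroup X) : Set X)) := by
      refine (hNL.inf hcE).mono ?_
      rintro x ⟨hx1, hx2⟩
      rw [Subgroup.mem_centralizer_iff]
      have h2 : N ⊔ E ≤ Subgroup.centralizer {x} := by
        refine sup_le ?_ ?_
        · intro y hy
          rw [Subgroup.mem_centralizer_iff]
          intro h hh
          rw [Set.mem_singleton_iff.1 hh]
          exact (Subgroup.mem_centralizer_iff.1 hx1 y hy).symm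
        · intro y hy
          rw [Subgroup.mem_centralizer_iff]
          intro h hh
          rw [Set.mem_singleton_iff.1 hh]
          exact (Subgroup.mem_centralizer_iff.1 hx2 y hy).symm
      intro y hy
      exact (Subgroup.mem_centralizer_iff.1 (h2 hy) x rfl).symm
    have h2 : N ⊔ E ≤ N := hN.2 ⟨inferInstance, h1⟩ le_sup_left
    exact hEN (le_sup_right.trans h2)

end Pool.Agent.Helper627_Rae
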