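import Pool.Agent.Helper867_Rae.Stmts
import Pool.Agent.Helper867_Rae.Base2
import Pool.Agent.TH84.J727

set_option autoImplicit false

/-! The statement (5a) and the general remark on imprimitivity. -/

namespace Pool.Agent.Helper627_Rae

open Pool.Agent.TH62.PL Pool.Agent.Helper867_Rae

/-- an abelian normal subgroup has order prime to `q` -/
theorem abel_card_ne {q : ℕ} [Fact q.Prime] {X : Type} [Group X] [Finite X]
    (hO : ∀ N : Subgroup X, N.Normal → IsPGroup q N → N = ⊥) {A : Subgroup X} (hA : A.Normal)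
    (hab : ∀ a ∈ A, ∀ b ∈ A, a * b = b * a) : ¬ q ∣ Nat.card A := by
  intro hq
  let Q : Subgroup X :=
    { carrier := {a | a ∈ A ∧ ∃ k, a ^ q ^ k = 1}
      one_mem' := ⟨A.one_mem, 0, one_pow _⟩
      mul_mem' := by
        rintro a b ⟨ha, k, hk⟩ ⟨hb, m, hm⟩
        refine ⟨A.mul_mem ha hb, k + m, ?_⟩
        have hc : Commute a b := hab a ha b hb
        rw [hc.mul_pow, pow_add, pow_mul, hk, one_pow, mul_comm (q ^ k), pow_mul, hm, one_pow,
          mul_one]
      inv_mem' := by
        rintro a ⟨ha, k, hk⟩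
        exact ⟨A.inv_mem ha, k, by rw [inv_pow, hk, inv_one]⟩ }
  have hQn : Q.Normal := ⟨by
    rintro a ⟨ha, k, hk⟩ g
    exact ⟨hA.conj_mem a ha g, k, by rw [conj_pow, hk, mul_one, mul_inv_cancel]⟩⟩
  have hQp : IsPGroup q Q := by
    rintro ⟨a, ha, k, hk⟩
    exact ⟨k, Subtype.ext hk⟩
  have h1 := hO Q hQn hQp
  obtain ⟨x, hx⟩ := exists_prime_orderOf_dvd_card' q hq
  have h2 : (x : X) ∈ Q := by
    refine ⟨x.2, 1, ?_⟩
    have h3 : x ^ q = 1 := by rw [← hx]; exact pow_orderOf_eq_one x
    have := congrArg Subtype.val h3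
    simpa using this
  rw [h1, Subgroup.mem_bot] at h2
  have h3 : x = 1 := Subtype.ext h2
  rw [h3, orderOf_one] at hx
  exact (Fact.out : q.Prime).one_lt.ne hx

/-- general remark: an imprimitivity idempotent. `f` is an operator such that all its conjugates under
`P` equal `f` or are orthogonal to it; then the stabiliser has no non-zero fixed vector in the image. -/
theorem remark {p q : ℕ} [hp : Fact p.Prime] [hq : Fact q.Prime] (hpq : p ≠ q) {k X V : Type}
    [Field k] [CharP k q] [Group X] [Finite X] [AddCommGroup V] [Module k V]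
    (ρ : X →* Module.End k V) (P : Subgroup X) (hP : IsPGroup p P)
    (hfix : ∀ v : V, (∀ x ∈ P, ρ x v = v) → v = 0) (f : Module.End k V)
    (hf : ∀ x ∈ P, ρ x * f = f * ρ x ∨ f * ρ x * f = 0) (w : V) (hw : f w = w)
    (hfw : ∀ x ∈ P, ρ x * f = f * ρ x → ρ x w = w) : w = 0 := by
  classical
  have := Fintype.ofFinite P
  set u : V := ∑ x : P, ρ x w with hu
  have hu0 : u = 0 := by
    apply hfix
    intro y hy
    rw [hu, map_sum]
    have h1 : ∀ x : P, ρ y (ρ x w) = ρ ((⟨y, hy⟩ * x : P) : X) w := by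
      intro x
      rw [Subgroup.coe_mul, map_mul]
      rfl
    simp only [h1]
    exact Equiv.sum_comp (Equiv.mulLeft (⟨y, hy⟩ : P)) (fun x : P => ρ (x : X) w)
  let P' : Subgroup P :=
    { carrier := {x | ρ x * f = f * ρ x}
      one_mem' := by
        change ρ ((1 : P) : X) * f = f * ρ ((1 : P) : X)
        rw [Subgroup.coe_one, map_one, one_mul, mul_one]
      mul_mem' := by
        intro a b ha hb
        change ρ ((a * b : P) : X) * f = f * ρ ((a * b : P) : X)
        change ρ (a : X) * f = f * ρ (a : X) at ha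
        change ρ (b : X) * f = f * ρ (b : X) at hb
        rw [Subgroup.coe_mul, map_mul, mul_assoc, hb, ← mul_assoc, ha, mul_assoc]
      inv_mem' := by
        intro a ha
        change ρ ((a⁻¹ : P) : X) * f = f * ρ ((a⁻¹ : P) : X)
        change ρ (a : X) * f = f * ρ (a : X) at ha
        have h1 : ρ ((a⁻¹ : P) : X) * ρ (a : X) = 1 := by
          rw [← map_mul, Subgroup.coe_inv, inv_mul_cancel, map_one]
        have h2 : ρ (a : X) * ρ ((a⁻¹ : P) : X) = 1 := by
          rw [← map_mul, Subgroup.coe_inv, mul_inv_cancel, map_one]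
        calc ρ ((a⁻¹ : P) : X) * f
            = ρ ((a⁻¹ : P) : X) * (f * (ρ (a : X) * ρ ((a⁻¹ : P) : X))) := by rw [h2, mul_one]
          _ = ρ ((a⁻¹ : P) : X) * (f * ρ (a : X)) * ρ ((a⁻¹ : P) : X) := by
              simp only [mul_assoc]
          _ = ρ ((a⁻¹ : P) : X) * (ρ (a : X) * f) * ρ ((a⁻¹ : P) : X) := by rw [ha]
          _ = (ρ ((a⁻¹ : P) : X) * ρ (a : X)) * f * ρ ((a⁻¹ : P) : X) := by
              simp only [mul_assoc]
          _ = f * ρ ((a⁻¹ : P) : X) := by rw [h1, one_mul] }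
  have hval : ∀ x : P, f (ρ x w) = if x ∈ P' then w else 0 := by
    intro x
    split_ifs with h
    · have h1 : ρ (x : X) * f = f * ρ (x : X) := h
      have h2 := hfw x x.2 h1
      rw [h2, hw]
    · have h1 := (hf x x.2).resolve_left h
      have h2 : (f * ρ (x : X) * f) w = 0 := by rw [h1]; rfl
      rw [Module.End.mul_apply, Module.End.mul_apply, hw] at h2
      exact h2
  have h3 : f u = (Nat.card P' : k) • w := by
    rw [hu, map_sum]
    simp only [hval]
    rw [← Finset.sum_filter, Finset.sum_const, Nat.card_eq_fintype_card, Fintype.card_subtype,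
      ← Nat.cast_smul_eq_nsmul k]
  rw [hu0, map_zero] at h3
  have h4 : (Nat.card P' : k) ≠ 0 := by
    intro h5
    rw [CharP.cast_eq_zero_iff k q] at h5
    obtain ⟨n, hn⟩ := (hP.to_subgroup P').exists_card_eq
    rw [hn] at h5
    exact hpq ((Nat.prime_dvd_prime_iff_eq hq.out hp.out).1 (hq.out.dvd_of_dvd_pow h5)).symm
  exact (smul_eq_zero.1 h3.symm).resolve_left h4

/-- (5a) -/
theorem c2a : S_C2a := by
  intro p l d q hp hq hC1 k X V _ _ _ _ _ _ _ _ ρ P A hpq hX hinj hO hP hcard hfix hA hab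
  have hqA : ((Nat.card A : ℕ) : k) ≠ 0 := by
    rw [Ne, CharP.cast_eq_zero_iff k q]
    exact abel_card_ne hO hA hab
  obtain ⟨Ω, hΩ, hact, e, χ, hPS, hχ, _, _, hχg, hχinj⟩ :=
    Pool.Agent.TH84.J727.charDec k X V ρ A hA hab hqA
  -- the stabilisers
  have hmain : ∀ ω : {ω : Ω // e ω ≠ 0}, LM p d (MulAction.stabilizer X ω.1) := by
    rintro ⟨ω, hω⟩
    refine hC1 X hX P _ hP hcard ?_
    intro g
    by_contra hcon
    push Not at hcon
    -- the idempotent of `g • ω`
    have hne : e (g • ω) ≠ 0 := by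
      intro h0
      have h1 := hPS.equi g ω
      rw [h0, zero_mul] at h1
      apply hω
      have h2 : ρ g⁻¹ * (ρ g * e ω) = 0 := by rw [h1, mul_zero]
      rw [← mul_assoc, ← map_mul, inv_mul_cancel, map_one, one_mul] at h2
      exact h2
    obtain ⟨v, hv⟩ : ∃ v, e (g • ω) v ≠ 0 := by
      by_contra h
      push Not at h
      exact hne (LinearMap.ext h)
    apply hv
    have hst : ∀ x ∈ P, x • (g • ω) = g • ω → x = 1 := by
      intro x hx h
      by_contra hx1
      apply hcon x hx hx1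
      rw [MulAction.mem_stabilizer_iff, mul_smul, mul_smul, h, inv_smul_smul]
    refine remark hpq ρ P hP.1 hfix (e (g • ω)) ?_ _ ?_ ?_
    · intro x hx
      rcases eq_or_ne (x • (g • ω)) (g • ω) with h | h
      · left
        rw [hPS.equi, h]
      · right
        rw [mul_assoc, hPS.equi, ← mul_assoc, hPS.orth _ _ h.symm, zero_mul]
    · rw [← Module.End.mul_apply, hPS.idem]
    · intro x hx hcomm
      have h : x • (g • ω) = g • ω := by
        by_contra h
        have h1 := hPS.equi x (g • ω)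
        rw [hcomm] at h1
        have h2 : e (g • ω) * (e (g • ω) * ρ x) = 0 := by
          rw [h1, ← mul_assoc, hPS.orth _ _ (Ne.symm h), zero_mul]
        rw [← mul_assoc, hPS.idem] at h2
        apply hne
        have h3 : e (g • ω) * ρ x * ρ x⁻¹ = 0 := by rw [h2, zero_mul]
        rw [mul_assoc, ← map_mul, mul_inv_cancel, map_one, mul_one] at h3
        exact h3
      rw [hst x hx h, map_one]
      rfl
  have hfin : Finite {ω : Ω // e ω ≠ 0} := inferInstance
  refine (LM.iInf hmain).mono ?_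
  intro x hx
  rw [Subgroup.mem_centralizer_iff]
  intro a ha
  have ha' : x * a * x⁻¹ ∈ A := hA.conj_mem a ha x
  have key : ρ (x * a * x⁻¹) = ρ a := by
    rw [← mul_one (ρ (x * a * x⁻¹)), ← mul_one (ρ a), ← hPS.sum, Finset.mul_sum, Finset.mul_sum]
    refine Finset.sum_congr rfl fun ω _ => ?_
    rcases eq_or_ne (e ω) 0 with h0 | h0
    · rw [h0, mul_zero, mul_zero]
    · rw [Subgroup.mem_iInf] at hx
      have h1 : x • ω = ω := hx ⟨ω, h0⟩
      rw [hχ ω _ ha', hχ ω _ ha]
      have h2 := hχg x ω a ha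
      rw [h1] at h2
      rw [h2]
  have h3 := hinj key
  calc a * x = x * a * x⁻¹ * x := by rw [h3]
    _ = x * a := by group

end Pool.Agent.Helper627_Rae
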