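import Pool.Agent.Helper627_Rae.C2a

set_option autoImplicit false

/-! Common eigenvectors and the idempotents of linear characters. -/

namespace Pool.Agent.Helper627_Rae

open Pool.Agent.TH62.PL Pool.Agent.Helper867_Rae

/-- commuting operators have a common eigenvector -/
theorem exists_common {k V ι : Type} [Field k] [IsAlgClosed k] [AddCommGroup V] [Module k V]
    [FiniteDimensional k V] (T : ι → Module.End k V) (U : Submodule k V) (hU : U ≠ ⊥)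
    (hinv : ∀ i, ∀ v ∈ U, T i v ∈ U) (hcomm : ∀ i j, ∀ v ∈ U, T i (T j v) = T j (T i v)) :
    ∃ v ∈ U, v ≠ 0 ∧ ∀ i, ∃ a : k, T i v = a • v := by
  obtain ⟨W, ⟨hWU, hW0, hWi⟩, hmin⟩ := WellFounded.has_min (wellFounded_lt (α := Submodule k V))
    {W | W ≤ U ∧ W ≠ ⊥ ∧ ∀ i, ∀ v ∈ W, T i v ∈ W} ⟨U, le_rfl, hU, hinv⟩
  obtain ⟨v, hv, hv0⟩ := (Submodule.ne_bot_iff W).1 hW0
  refine ⟨v, hWU hv, hv0, ?_⟩
  intro i
  have hnt : Nontrivial W := ⟨⟨⟨v, hv⟩, 0, fun h => hv0 (congrArg Subtype.val h)⟩⟩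
  obtain ⟨a, ha⟩ := Module.End.exists_eigenvalue ((T i).restrict (hWi i))
  obtain ⟨w, hw⟩ := ha.exists_hasEigenvector
  have hw1 : T i (w : V) = a • (w : V) := by
    have := congrArg Subtype.val hw.apply_eq_smul
    exact this
  let E : Submodule k V :=
    { carrier := {u | u ∈ W ∧ T i u = a • u}
      zero_mem' := ⟨W.zero_mem, by rw [map_zero, smul_zero]⟩
      add_mem' := by
        rintro x y ⟨hx, hx'⟩ ⟨hy, hy'⟩
        exact ⟨W.add_mem hx hy, by rw [map_add, hx', hy', smul_add]⟩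
      smul_mem' := by
        rintro c x ⟨hx, hx'⟩
        exact ⟨W.smul_mem c hx, by rw [map_smul, hx', smul_comm]⟩ }
  have hE : E = W := by
    by_contra hne
    have hEW : E ≤ W := fun x hx => hx.1
    refine hmin E ⟨hEW.trans hWU, ?_, ?_⟩ (lt_of_le_of_ne hEW hne)
    · rw [Submodule.ne_bot_iff]
      exact ⟨w, ⟨w.2, hw1⟩, fun h => hw.2 (Subtype.ext h)⟩
    · rintro j x ⟨hx, hx'⟩
      refine ⟨hWi j x hx, ?_⟩
      rw [hcomm i j x (hWU hx), hx', map_smul]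
  refine ⟨a, ?_⟩
  have h1 : v ∈ E := by rw [hE]; exact hv
  exact h1.2

section idem

variable {k X V : Type} [Field k] [Group X] [Finite X] [AddCommGroup V] [Module k V]
  (ρ : X →* Module.End k V)

open Classical in
/-- the idempotent of the linear character `μ` of `H` -/
noncomputable def idm (H : Subgroup X) (μ : X → k) : Module.End k V :=
  letI := Fintype.ofFinite H
  ((Nat.card H : ℕ) : k)⁻¹ • ∑ z : H, (μ z)⁻¹ • ρ z

variable {ρ} {H : Subgroup X} {μ : X → k}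

/-- if `H` acts on the image of `T` through `μ`, then `idm` fixes `T` -/
theorem idm_mul (hH : ((Nat.card H : ℕ) : k) ≠ 0) (h0 : ∀ z ∈ H, μ z ≠ 0) {T : Module.End k V}
    (hT : ∀ z ∈ H, ρ z * T = μ z • T) : idm ρ H μ * T = T := by
  classical
  unfold idm
  let _ := Fintype.ofFinite H
  rw [smul_mul_assoc, Finset.sum_mul]
  have h1 : ∀ z : H, ((μ z)⁻¹ • ρ z) * T = T := by
    intro z
    rw [smul_mul_assoc, hT z z.2, smul_smul, inv_mul_cancel₀ (h0 z z.2), one_smul]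
  simp only [h1]
  rw [Finset.sum_const, ← Nat.cast_smul_eq_nsmul k, smul_smul, Finset.card_univ,
    ← Nat.card_eq_fintype_card, inv_mul_cancel₀ hH, one_smul]

theorem mul_idm (hH : ((Nat.card H : ℕ) : k) ≠ 0) (h0 : ∀ z ∈ H, μ z ≠ 0) {T : Module.End k V}
    (hT : ∀ z ∈ H, T * ρ z = μ z • T) : T * idm ρ H μ = T := by
  classical
  unfold idm
  let _ := Fintype.ofFinite H
  rw [mul_smul_comm, Finset.mul_sum]
  have h1 : ∀ z : H, T * ((μ z)⁻¹ • ρ z) = T := by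
    intro z
    rw [mul_smul_comm, hT z z.2, smul_smul, inv_mul_cancel₀ (h0 z z.2), one_smul]
  simp only [h1]
  rw [Finset.sum_const, ← Nat.cast_smul_eq_nsmul k, smul_smul, Finset.card_univ,
    ← Nat.card_eq_fintype_card, inv_mul_cancel₀ hH, one_smul]

theorem idm_apply (hH : ((Nat.card H : ℕ) : k) ≠ 0) (h0 : ∀ z ∈ H, μ z ≠ 0) {v : V}
    (hv : ∀ z ∈ H, ρ z v = μ z • v) : idm ρ H μ v = v := by
  classical
  unfold idm
  let _ := Fintype.ofFinite H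
  rw [LinearMap.smul_apply, LinearMap.sum_apply]
  have h1 : ∀ z : H, ((μ z)⁻¹ • ρ z) v = v := by
    intro z
    rw [LinearMap.smul_apply, hv z z.2, smul_smul, inv_mul_cancel₀ (h0 z z.2), one_smul]
  simp only [h1]
  rw [Finset.sum_const, ← Nat.cast_smul_eq_nsmul k, smul_smul, Finset.card_univ,
    ← Nat.card_eq_fintype_card, inv_mul_cancel₀ hH, one_smul]

/-- `ρ z * idm = μ z • idm` -/
theorem rho_mul_idm (h0 : ∀ z ∈ H, μ z ≠ 0) (hm : ∀ y ∈ H, ∀ z ∈ H, μ (y * z) = μ y * μ z) :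
    ∀ z ∈ H, ρ z * idm ρ H μ = μ z • idm ρ H μ := by
  classical
  intro z hz
  unfold idm
  let _ := Fintype.ofFinite H
  rw [mul_smul_comm, smul_comm (μ z)]
  congr 1
  rw [Finset.mul_sum, Finset.smul_sum, ← Equiv.sum_comp (Equiv.mulLeft (⟨z, hz⟩ : H)) (fun y : H => μ z • ((μ y)⁻¹ • ρ (y : X)))]
  refine Finset.sum_congr rfl fun y _ => ?_
  change ρ z * ((μ y)⁻¹ • ρ (y : X)) = μ z • ((μ (z * (y : X)))⁻¹ • ρ (z * (y : X)))
  rw [mul_smul_comm, ← map_mul, hm z hz y y.2, smul_smul, mul_inv, mul_inv_cancel_left₀ (h0 z hz)]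

/-- `idm * ρ z = μ z • idm` -/
theorem idm_mul_rho (h0 : ∀ z ∈ H, μ z ≠ 0) (hm : ∀ y ∈ H, ∀ z ∈ H, μ (y * z) = μ y * μ z) :
    ∀ z ∈ H, idm ρ H μ * ρ z = μ z • idm ρ H μ := by
  classical
  intro z hz
  unfold idm
  let _ := Fintype.ofFinite H
  rw [smul_mul_assoc, smul_comm (μ z)]
  congr 1
  rw [Finset.sum_mul, Finset.smul_sum, ← Equiv.sum_comp (Equiv.mulRight (⟨z, hz⟩ : H)) (fun y : H => μ z • ((μ y)⁻¹ • ρ (y : X)))]
  refine Finset.sum_congr rfl fun y _ => ?_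
  change ((μ y)⁻¹ • ρ (y : X)) * ρ z = μ z • ((μ ((y : X) * z))⁻¹ • ρ ((y : X) * z))
  rw [smul_mul_assoc, ← map_mul, hm y y.2 z hz, smul_smul, mul_inv, mul_comm (μ y)⁻¹,
    mul_inv_cancel_left₀ (h0 z hz)]

/-- elements preserving the character commute with the idempotent -/
theorem rho_comm_idm (hH : ((Nat.card H : ℕ) : k) ≠ 0) (h0 : ∀ z ∈ H, μ z ≠ 0)
    (hm : ∀ y ∈ H, ∀ z ∈ H, μ (y * z) = μ y * μ z) {g : X}
    (h1 : ∀ z ∈ H, g⁻¹ * z * g ∈ H ∧ μ (g⁻¹ * z * g) = μ z)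
    (h2 : ∀ z ∈ H, g * z * g⁻¹ ∈ H ∧ μ (g * z * g⁻¹) = μ z) :
    ρ g * idm ρ H μ = idm ρ H μ * ρ g := by
  have a1 : idm ρ H μ * (ρ g * idm ρ H μ) = ρ g * idm ρ H μ := by
    refine idm_mul hH h0 fun z hz => ?_
    have e : ρ z * (ρ g * idm ρ H μ) = ρ g * (ρ (g⁻¹ * z * g) * idm ρ H μ) := by
      rw [← mul_assoc, ← mul_assoc, ← map_mul, ← map_mul]
      congr 2
      group
    rw [e, rho_mul_idm h0 hm _ (h1 z hz).1, (h1 z hz).2, mul_smul_comm]
  have a2 : (idm ρ H μ * ρ g) * idm ρ H μ = idm ρ H μ * ρ g := by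
    refine mul_idm hH h0 fun z hz => ?_
    have e : (idm ρ H μ * ρ g) * ρ z = (idm ρ H μ * ρ (g * z * g⁻¹)) * ρ g := by
      rw [mul_assoc, mul_assoc, ← map_mul, ← map_mul]
      congr 2
      group
    rw [e, idm_mul_rho h0 hm _ (h2 z hz).1, (h2 z hz).2, smul_mul_assoc]
  rw [← a1, ← mul_assoc, a2]

end idem

end Pool.Agent.Helper627_Rae
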