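import Pool.Agent.Helper627_Rae.C2w

set_option autoImplicit false

/-! Weights for a group of class two. -/

namespace Pool.Agent.Helper627_Rae

open Pool.Agent.TH62.PL Pool.Agent.Helper867_Rae

theorem rho_inv_apply {k X V : Type} [Field k] [Group X] [AddCommGroup V] [Module k V]
    (ρ : X →* Module.End k V) (g : X) (v : V) : ρ g⁻¹ (ρ g v) = v := by
  rw [← Module.End.mul_apply, ← map_mul, inv_mul_cancel, map_one]; rfl

theorem rho_apply_inv {k X V : Type} [Field k] [Group X] [AddCommGroup V] [Module k V]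
    (ρ : X →* Module.End k V) (g : X) (v : V) : ρ g (ρ g⁻¹ v) = v := by
  rw [← Module.End.mul_apply, ← map_mul, mul_inv_cancel, map_one]; rfl

/-- the subgroup `{e ∈ E | lam [e, E] = 1}` -/
theorem exists_El {k X : Type} [Field k] [Group X] {E Z0 : Subgroup X} (hZE : Z0 ≤ E)
    (hcen : ∀ z ∈ Z0, ∀ e ∈ E, z * e = e * z)
    (hcomm : ∀ x ∈ E, ∀ y ∈ E, x * y * x⁻¹ * y⁻¹ ∈ Z0) (lam : X → k)
    (hl0 : ∀ z ∈ Z0, lam z ≠ 0) (hlm : ∀ y ∈ Z0, ∀ z ∈ Z0, lam (y * z) = lam y * lam z) :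
    ∃ El : Subgroup X, (∀ e, e ∈ El ↔ e ∈ E ∧ ∀ e' ∈ E, lam (e * e' * e⁻¹ * e'⁻¹) = 1) ∧
      Z0 ≤ El := by
  have hl1 : lam 1 = 1 := by
    have h1 := hlm 1 Z0.one_mem 1 Z0.one_mem
    rw [mul_one] at h1
    exact (mul_eq_left₀ (hl0 1 Z0.one_mem)).1 h1.symm
  refine ⟨{ carrier := {e | e ∈ E ∧ ∀ e' ∈ E, lam (e * e' * e⁻¹ * e'⁻¹) = 1}
            one_mem' := ⟨E.one_mem, fun e' _ => by
              rw [one_mul, inv_one, mul_one, mul_inv_cancel, hl1]⟩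
            mul_mem' := ?_
            inv_mem' := ?_ }, fun e => Iff.rfl, ?_⟩
  · rintro a b ⟨ha, ha'⟩ ⟨hb, hb'⟩
    refine ⟨E.mul_mem ha hb, fun e' he' => ?_⟩
    have h1 := hcomm b hb e' he'
    have h2 := hcen _ h1 a ha
    have e1 : a * b * e' * (a * b)⁻¹ * e'⁻¹ =
        (b * e' * b⁻¹ * e'⁻¹) * (a * e' * a⁻¹ * e'⁻¹) := by
      calc a * b * e' * (a * b)⁻¹ * e'⁻¹ = a * (b * e' * b⁻¹ * e'⁻¹) * (e' * a⁻¹ * e'⁻¹) := by group
        _ = (b * e' * b⁻¹ * e'⁻¹) * a * (e' * a⁻¹ * e'⁻¹) := by rw [h2]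
        _ = _ := by group
    rw [e1, hlm _ h1 _ (hcomm a ha e' he'), hb' e' he', ha' e' he', one_mul]
  · rintro a ⟨ha, ha'⟩
    refine ⟨E.inv_mem ha, fun e' he' => ?_⟩
    have h1 := hcomm a ha e' he'
    have h2 := hcen _ (Z0.inv_mem h1) a ha
    have e1 : a⁻¹ * e' * a⁻¹⁻¹ * e'⁻¹ = (a * e' * a⁻¹ * e'⁻¹)⁻¹ := by
      calc a⁻¹ * e' * a⁻¹⁻¹ * e'⁻¹ = a⁻¹ * ((a * e' * a⁻¹ * e'⁻¹)⁻¹ * a) := by group
        _ = a⁻¹ * (a * (a * e' * a⁻¹ * e'⁻¹)⁻¹) := by rw [h2]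
        _ = _ := by group
    rw [e1]
    have h3 := hlm _ h1 _ (Z0.inv_mem h1)
    rw [mul_inv_cancel, hl1, ha' e' he', one_mul] at h3
    exact h3.symm
  · intro z hz
    refine ⟨hZE hz, fun e' he' => ?_⟩
    rw [hcen z hz e' he', mul_inv_cancel_right, mul_inv_cancel, hl1]

theorem exists_weight {k X V : Type} [Field k] [IsAlgClosed k] [Group X] [Finite X]
    [AddCommGroup V] [Module k V] [FiniteDimensional k V] (ρ : X →* Module.End k V)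
    (hinj : Function.Injective ρ) {E Z0 : Subgroup X} (hZ : Z0.Normal) (hZE : Z0 ≤ E)
    (hcen : ∀ z ∈ Z0, ∀ e ∈ E, z * e = e * z)
    (hcomm : ∀ x ∈ E, ∀ y ∈ E, x * y * x⁻¹ * y⁻¹ ∈ Z0)
    (hnab : ¬ ∀ x ∈ E, ∀ y ∈ E, x * y = y * x) (hcardE : ((Nat.card E : ℕ) : k) ≠ 0) :
    ∃ (El : Subgroup X) (μ : X → k) (v : V), El ≤ E ∧ El ≠ E ∧ Z0 ≤ El ∧
      (∀ e, e ∈ El ↔ e ∈ E ∧ ∀ e' ∈ E, μ (e * e' * e⁻¹ * e'⁻¹) = 1) ∧
      (∀ z ∈ El, μ z ≠ 0) ∧ (∀ y ∈ El, ∀ z ∈ El, μ (y * z) = μ y * μ z) ∧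
      v ≠ 0 ∧ ∀ z ∈ El, ρ z v = μ z • v := by
  classical
  have hZab : ∀ x ∈ Z0, ∀ y ∈ Z0, x * y = y * x := fun x hx y hy => hcen x hx y (hZE hy)
  have hcardZ : ((Nat.card Z0 : ℕ) : k) ≠ 0 := by
    intro h
    apply hcardE
    obtain ⟨m, hm⟩ := Subgroup.card_dvd_of_le hZE
    rw [hm, Nat.cast_mul, h, zero_mul]
  obtain ⟨Ω, hΩ, hact, e, χ, hPS, hχ, hχm, hχ0, hχg, hχinj⟩ :=
    Pool.Agent.TH84.J727.charDec k X V ρ Z0 hZ hZab hcardZ
  push Not at hnab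
  obtain ⟨x0, hx0, y0, hy0, hxy⟩ := hnab
  set c : X := x0 * y0 * x0⁻¹ * y0⁻¹ with hc
  have hcZ : c ∈ Z0 := hcomm x0 hx0 y0 hy0
  have hc1 : c ≠ 1 := by
    intro h
    apply hxy
    calc x0 * y0 = c * (y0 * x0) := by rw [hc]; group
      _ = y0 * x0 := by rw [h, one_mul]
  obtain ⟨ω, hω, hωc⟩ : ∃ ω, e ω ≠ 0 ∧ χ ω c ≠ 1 := by
    by_contra hcon
    push Not at hcon
    apply hc1
    apply hinj
    rw [map_one, ← mul_one (ρ c), ← hPS.sum, Finset.mul_sum]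
    refine Finset.sum_congr rfl fun ω _ => ?_
    rcases eq_or_ne (e ω) 0 with h0 | h0
    · rw [h0, mul_zero]
    · rw [hχ ω c hcZ, hcon ω h0, one_smul]
  obtain ⟨El, hEl, hZEl⟩ := exists_El hZE hcen hcomm (χ ω) (hχ0 ω) (hχm ω)
  have hElE : El ≤ E := fun x hx => ((hEl x).1 hx).1
  -- elements of `E` fix `ω`
  have hfixω : ∀ x ∈ E, x • ω = ω := by
    intro x hx
    refine hχinj _ _ fun z hz => ?_
    have h1 := hχg x ω z hz
    have h2 : x * z * x⁻¹ = z := by rw [← hcen z hz x hx, mul_inv_cancel_right]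
    rw [h2] at h1
    exact h1
  have hcommω : ∀ x ∈ E, ρ x * e ω = e ω * ρ x := by
    intro x hx
    rw [hPS.equi, hfixω x hx]
  -- common eigenvector
  have hU : LinearMap.range (e ω) ≠ ⊥ := by
    intro h
    exact hω (LinearMap.range_eq_bot.1 h)
  have hzU : ∀ z ∈ Z0, ∀ v ∈ LinearMap.range (e ω), ρ z v = χ ω z • v := by
    rintro z hz _ ⟨u, rfl⟩
    rw [← Module.End.mul_apply, hχ ω z hz]
    rfl
  have hinv : ∀ x ∈ E, ∀ v ∈ LinearMap.range (e ω), ρ x v ∈ LinearMap.range (e ω) := by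
    rintro x hx _ ⟨u, rfl⟩
    rw [← Module.End.mul_apply, hcommω x hx]
    exact ⟨ρ x u, rfl⟩
  obtain ⟨v, hvU, hv0, hv⟩ := exists_common (fun z : El => ρ (z : X)) (LinearMap.range (e ω)) hU
    (fun z v hv => hinv _ (hElE z.2) v hv) (by
      intro z z' v hv
      have h1 := (hEl z).1 z.2
      have h2 := h1.2 z' (hElE z'.2)
      have h3 : (z : X) * z' = ((z : X) * z' * (z : X)⁻¹ * (z' : X)⁻¹) * (z' * z) := by group
      change ρ (z : X) (ρ (z' : X) v) = ρ (z' : X) (ρ (z : X) v)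
      rw [← Module.End.mul_apply, ← Module.End.mul_apply, ← map_mul, ← map_mul]
      conv_lhs => rw [h3, map_mul, Module.End.mul_apply]
      rw [hzU _ (hcomm _ h1.1 _ (hElE z'.2)), h2, one_smul]
      exact hinv _ (E.mul_mem (hElE z'.2) (hElE z.2)) v hv)
  choose a ha using hv
  set μ : X → k := fun x => if h : x ∈ El then a ⟨x, h⟩ else 0 with hμ
  have hμv : ∀ z ∈ El, ρ z v = μ z • v := by
    intro z hz
    have h1 : μ z = a ⟨z, hz⟩ := by rw [hμ]; simp only [hz, dif_pos]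
    rw [h1]
    exact ha ⟨z, hz⟩
  have hμZ : ∀ z ∈ Z0, μ z = χ ω z := by
    intro z hz
    have h1 := hμv z (hZEl hz)
    rw [hzU z hz v hvU] at h1
    exact (smul_left_injective k hv0 h1).symm
  refine ⟨El, μ, v, hElE, ?_, hZEl, ?_, ?_, ?_, hv0, hμv⟩
  · intro h
    rw [← h] at hx0
    exact hωc (((hEl x0).1 hx0).2 y0 hy0)
  · intro x
    rw [hEl]
    constructor
    · rintro ⟨h1, h2⟩
      exact ⟨h1, fun y hy => by rw [hμZ _ (hcomm x h1 y hy)]; exact h2 y hy⟩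
    · rintro ⟨h1, h2⟩
      exact ⟨h1, fun y hy => by rw [← hμZ _ (hcomm x h1 y hy)]; exact h2 y hy⟩
  · intro z hz h
    have h1 := hμv z hz
    rw [h, zero_smul] at h1
    apply hv0
    rw [← rho_inv_apply ρ z v, h1, map_zero]
  · intro y hy z hz
    have h1 := hμv _ (El.mul_mem hy hz)
    rw [map_mul, Module.End.mul_apply, hμv z hz, map_smul, hμv y hy, smul_smul] at h1
    rw [mul_comm (μ y)]
    exact (smul_left_injective k hv0 h1).symm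

end Pool.Agent.Helper627_Rae
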