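import Pool.Agent.Helper627_Rae.C2x

set_option autoImplicit false

/-! The idempotent of a weight. -/

namespace Pool.Agent.Helper627_Rae

open Pool.Agent.TH62.PL Pool.Agent.Helper867_Rae

/-- weight data -/
structure WD {k X : Type} [Field k] [Group X] (E Z0 El : Subgroup X) (μ : X → k) : Prop where
  En : E.Normal
  Zn : Z0.Normal
  ZE : Z0 ≤ E
  cen : ∀ z ∈ Z0, ∀ e ∈ E, z * e = e * z
  comm : ∀ x ∈ E, ∀ y ∈ E, x * y * x⁻¹ * y⁻¹ ∈ Z0
  ElE : El ≤ E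
  ZEl : Z0 ≤ El
  mem : ∀ e, e ∈ El ↔ e ∈ E ∧ ∀ e' ∈ E, μ (e * e' * e⁻¹ * e'⁻¹) = 1
  ne0 : ∀ z ∈ El, μ z ≠ 0
  mul : ∀ y ∈ El, ∀ z ∈ El, μ (y * z) = μ y * μ z
  card : ((Nat.card El : ℕ) : k) ≠ 0

namespace WD

variable {k X V : Type} [Field k] [Group X] [Finite X] [AddCommGroup V] [Module k V]
  {ρ : X →* Module.End k V} {E Z0 El : Subgroup X} {μ : X → k}

theorem one (h : WD E Z0 El μ) : μ 1 = 1 := by
  have h1 := h.mul 1 El.one_mem 1 El.one_mem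
  rw [mul_one] at h1
  exact (mul_eq_left₀ (h.ne0 1 El.one_mem)).1 h1.symm

theorem inv_one' (h : WD E Z0 El μ) {c : X} (hc : c ∈ El) (h1 : μ c = 1) : μ c⁻¹ = 1 := by
  have h3 := h.mul _ hc _ (El.inv_mem hc)
  rw [mul_inv_cancel, h.one, h1, one_mul] at h3
  exact h3.symm

theorem conjE (h : WD E Z0 El μ) {e : X} (he : e ∈ E) {z : X} (hz : z ∈ El) :
    e * z * e⁻¹ ∈ El ∧ μ (e * z * e⁻¹) = μ z := by
  have h1 : z * e * z⁻¹ * e⁻¹ ∈ El := h.ZEl (h.comm z (h.ElE hz) e he)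
  have h2 : μ (z * e * z⁻¹ * e⁻¹) = 1 := ((h.mem z).1 hz).2 e he
  have e1 : e * z * e⁻¹ = (z * e * z⁻¹ * e⁻¹)⁻¹ * z := by group
  rw [e1]
  refine ⟨El.mul_mem (El.inv_mem h1) hz, ?_⟩
  rw [h.mul _ (El.inv_mem h1) _ hz, h.inv_one' h1 h2, one_mul]

theorem commE (h : WD E Z0 El μ) {e : X} (he : e ∈ E) :
    ρ e * idm ρ El μ = idm ρ El μ * ρ e := by
  refine rho_comm_idm h.card h.ne0 h.mul (fun z hz => ?_) (fun z hz => h.conjE he hz)
  have := h.conjE (E.inv_mem he) hz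
  rw [inv_inv] at this
  exact this

theorem dich (h : WD E Z0 El μ) (g : X) :
    ρ g * idm ρ El μ = idm ρ El μ * ρ g ∨ idm ρ El μ * ρ g * idm ρ El μ = 0 := by
  by_cases h0 : idm ρ El μ * ρ g * idm ρ El μ = 0
  · right; exact h0
  left
  have key : ∀ z ∈ El, g⁻¹ * z * g ∈ El → μ (g⁻¹ * z * g) = μ z := by
    intro z hz hz'
    have a1 : idm ρ El μ * ρ z * ρ g * idm ρ El μ = μ z • (idm ρ El μ * ρ g * idm ρ El μ) := by
      rw [idm_mul_rho h.ne0 h.mul z hz, smul_mul_assoc, smul_mul_assoc]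
    have a2 : idm ρ El μ * ρ z * ρ g * idm ρ El μ =
        μ (g⁻¹ * z * g) • (idm ρ El μ * ρ g * idm ρ El μ) := by
      have e1 : ρ z * ρ g = ρ g * ρ (g⁻¹ * z * g) := by
        rw [← map_mul, ← map_mul]; congr 1; group
      rw [mul_assoc (idm ρ El μ) (ρ z), e1, mul_assoc, mul_assoc (ρ g),
        rho_mul_idm h.ne0 h.mul _ hz', mul_smul_comm, mul_smul_comm, ← mul_assoc]
    rw [a1] at a2
    exact (smul_left_injective k h0 a2).symm
  have keyZ : ∀ z ∈ Z0, μ (g⁻¹ * z * g) = μ z := by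
    intro z hz
    refine key z (h.ZEl hz) (h.ZEl ?_)
    have := h.Zn.conj_mem z hz g⁻¹
    rwa [inv_inv] at this
  have keyZ' : ∀ z ∈ Z0, μ (g * z * g⁻¹) = μ z := by
    intro z hz
    have := keyZ (g * z * g⁻¹) (h.Zn.conj_mem z hz g)
    rw [← this]
    congr 1
    group
  have m1 : ∀ z ∈ El, g⁻¹ * z * g ∈ El := by
    intro z hz
    rw [h.mem]
    refine ⟨?_, fun e' he' => ?_⟩
    · have := h.En.conj_mem z (h.ElE hz) g⁻¹
      rwa [inv_inv] at this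
    · have h2 : g * e' * g⁻¹ ∈ E := h.En.conj_mem e' he' g
      have e1 : g⁻¹ * z * g * e' * (g⁻¹ * z * g)⁻¹ * e'⁻¹ =
          g⁻¹ * (z * (g * e' * g⁻¹) * z⁻¹ * (g * e' * g⁻¹)⁻¹) * g := by group
      rw [e1, keyZ _ (h.comm z (h.ElE hz) _ h2)]
      exact ((h.mem z).1 hz).2 _ h2
  have m2 : ∀ z ∈ El, g * z * g⁻¹ ∈ El := by
    intro z hz
    rw [h.mem]
    refine ⟨h.En.conj_mem z (h.ElE hz) g, fun e' he' => ?_⟩
    have h2 : g⁻¹ * e' * g ∈ E := by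
      have := h.En.conj_mem e' he' g⁻¹
      rwa [inv_inv] at this
    have e1 : g * z * g⁻¹ * e' * (g * z * g⁻¹)⁻¹ * e'⁻¹ =
        g * (z * (g⁻¹ * e' * g) * z⁻¹ * (g⁻¹ * e' * g)⁻¹) * g⁻¹ := by group
    rw [e1, keyZ' _ (h.comm z (h.ElE hz) _ h2)]
    exact ((h.mem z).1 hz).2 _ h2
  refine rho_comm_idm h.card h.ne0 h.mul (fun z hz => ⟨m1 z hz, key z hz (m1 z hz)⟩)
    (fun z hz => ⟨m2 z hz, ?_⟩)
  have e1 : g⁻¹ * (g * z * g⁻¹) * g = z := by group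
  have h3 := key (g * z * g⁻¹) (m2 z hz) (by rw [e1]; exact hz)
  rw [e1] at h3
  exact h3.symm

theorem of_comm (h : WD E Z0 El μ) (hf : idm ρ El μ ≠ 0) {e : X} (he : e ∈ E)
    (hc : ∀ e' ∈ E, ρ (e * e') * idm ρ El μ = ρ (e' * e) * idm ρ El μ) : e ∈ El := by
  rw [h.mem]
  refine ⟨he, fun e' he' => ?_⟩
  have h1 := hc e' he'
  have hcZ := h.comm e he e' he'
  have e1 : e * e' = (e' * e) * (e * e' * e⁻¹ * e'⁻¹) := by
    rw [← h.cen _ hcZ _ (E.mul_mem he' he)]; group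
  rw [e1, map_mul, mul_assoc, rho_mul_idm h.ne0 h.mul _ (h.ZEl hcZ), mul_smul_comm] at h1
  have hne : ρ (e' * e) * idm ρ El μ ≠ 0 := by
    intro h2
    apply hf
    have h3 : ρ (e' * e)⁻¹ * (ρ (e' * e) * idm ρ El μ) = 0 := by rw [h2, mul_zero]
    rwa [← mul_assoc, ← map_mul, inv_mul_cancel, map_one, one_mul] at h3
  have h2 : μ (e * e' * e⁻¹ * e'⁻¹) • (ρ (e' * e) * idm ρ El μ) =
      (1 : k) • (ρ (e' * e) * idm ρ El μ) := by rw [one_smul]; exact h1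
  exact smul_left_injective k hne h2

theorem of_scalar (h : WD E Z0 El μ) (hf : idm ρ El μ ≠ 0) {e : X} (he : e ∈ E) {a : k}
    (ha : ρ e * idm ρ El μ = a • idm ρ El μ) : e ∈ El := by
  refine h.of_comm hf he fun e' he' => ?_
  calc ρ (e * e') * idm ρ El μ = ρ e * (ρ e' * idm ρ El μ) := by rw [map_mul, mul_assoc]
    _ = ρ e * idm ρ El μ * ρ e' := by rw [h.commE he', mul_assoc]
    _ = a • (idm ρ El μ * ρ e') := by rw [ha, smul_mul_assoc]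
    _ = ρ e' * (a • idm ρ El μ) := by rw [← h.commE he', mul_smul_comm]
    _ = ρ (e' * e) * idm ρ El μ := by rw [← ha, map_mul, mul_assoc]

end WD

end Pool.Agent.Helper627_Rae
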