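import Pool.Agent.Helper627_Rae.C2y

set_option autoImplicit false

/-! Application of Lemma D. -/

namespace Pool.Agent.Helper627_Rae

open Pool.Agent.TH62.PL Pool.Agent.Helper867_Rae

section
variable {k X V : Type} [Field k] [Group X] [AddCommGroup V] [Module k V]
  (ρ : X →* Module.End k V) (f : Module.End k V)

/-- the elements commuting with `f` -/
def St : Subgroup X where
  carrier := {g | ρ g * f = f * ρ g}
  one_mem' := by
    change ρ 1 * f = f * ρ 1
    rw [map_one, one_mul, mul_one]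
  mul_mem' := by
    intro a b ha hb
    change ρ (a * b) * f = f * ρ (a * b)
    change ρ a * f = f * ρ a at ha
    change ρ b * f = f * ρ b at hb
    rw [map_mul, mul_assoc, hb, ← mul_assoc, ha, mul_assoc]
  inv_mem' := by
    intro a ha
    change ρ a⁻¹ * f = f * ρ a⁻¹
    change ρ a * f = f * ρ a at ha
    have h1 : ρ a⁻¹ * ρ a = 1 := by rw [← map_mul, inv_mul_cancel, map_one]
    have h2 : ρ a * ρ a⁻¹ = 1 := by rw [← map_mul, mul_inv_cancel, map_one]
    calc ρ a⁻¹ * f = ρ a⁻¹ * (f * (ρ a * ρ a⁻¹)) := by rw [h2, mul_one]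
      _ = ρ a⁻¹ * (f * ρ a) * ρ a⁻¹ := by simp only [mul_assoc]
      _ = ρ a⁻¹ * (ρ a * f) * ρ a⁻¹ := by rw [ha]
      _ = (ρ a⁻¹ * ρ a) * f * ρ a⁻¹ := by simp only [mul_assoc]
      _ = f * ρ a⁻¹ := by rw [h1, one_mul]

variable {ρ f}

theorem mem_St {g : X} : g ∈ St ρ f ↔ ρ g * f = f * ρ g := Iff.rfl

theorem St_range {g : X} (hg : g ∈ St ρ f) : ∀ w ∈ LinearMap.range f, ρ g w ∈ LinearMap.range f := by
  rintro _ ⟨u, rfl⟩
  rw [← Module.End.mul_apply, mem_St.1 hg]
  exact ⟨ρ g u, rfl⟩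

variable (ρ f)

/-- the action of `St` on the image of `f` -/
def rhoR : St ρ f →* Module.End k (LinearMap.range f) where
  toFun g := (ρ (g : X)).restrict (St_range g.2)
  map_one' := by
    ext w
    change ρ ((1 : St ρ f) : X) (w : V) = (w : V)
    rw [Subgroup.coe_one, map_one]
    rfl
  map_mul' := by
    intro a b
    ext w
    change ρ ((a * b : St ρ f) : X) (w : V) = ρ (a : X) (ρ (b : X) (w : V))
    rw [Subgroup.coe_mul, map_mul]
    rfl

theorem rhoR_apply (g : St ρ f) (w : LinearMap.range f) :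
    ((rhoR ρ f g w : LinearMap.range f) : V) = ρ (g : X) (w : V) := rfl

end

/-- Lemma D at the idempotent of a weight -/
theorem st_D (hD : S_D) {p q : ℕ} [hp : Fact p.Prime] [hq : Fact q.Prime] (hpq : p ≠ q)
    {k X V : Type} [Field k] [CharP k q] [Group X] [Finite X] [AddCommGroup V] [Module k V]
    [FiniteDimensional k V] (ρ : X →* Module.End k V) {E Z0 El : Subgroup X} {μ : X → k}
    (h : WD E Z0 El μ) (hf : idm ρ El μ ≠ 0) (hcardE : ((Nat.card E : ℕ) : k) ≠ 0)
    (P : Subgroup X) (hP : IsPGroup p P) (hfix : ∀ v : V, (∀ x ∈ P, ρ x v = v) → v = 0) :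
    ∃ x ∈ P, x ∈ St ρ (idm ρ El μ) ∧ x ≠ 1 ∧ Sm E El x ((Nat.card P) ^ 2) := by
  classical
  set f := idm ρ El μ with hfd
  have hff : f * f = f := idm_mul h.card h.ne0 (rho_mul_idm h.ne0 h.mul)
  have hES : E ≤ St ρ f := fun e he => h.commE he
  have hfR : ∀ w : LinearMap.range f, f (w : V) = w := by
    rintro ⟨_, u, rfl⟩
    change f (f u) = f u
    rw [← Module.End.mul_apply, hff]
  have hnt : Nontrivial (LinearMap.range f) := by
    obtain ⟨v, hv⟩ : ∃ v, f v ≠ 0 := by
      by_contra hcon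
      push Not at hcon
      exact hf (LinearMap.ext hcon)
    exact ⟨⟨⟨f v, v, rfl⟩, 0, fun h => hv (congrArg Subtype.val h)⟩⟩
  set P' : Subgroup (St ρ f) := P.subgroupOf (St ρ f) with hP'
  set E' : Subgroup (St ρ f) := E.subgroupOf (St ρ f) with hE'
  set El' : Subgroup (St ρ f) := El.subgroupOf (St ρ f) with hEl'
  have hcardE' : ((Nat.card E' : ℕ) : k) ≠ 0 := by
    rw [hE', Nat.card_congr (Subgroup.subgroupOfEquivOfLe hES).toEquiv]
    exact hcardE
  have hscal : ∀ e : St ρ f, e ∈ El' ↔ e ∈ E' ∧ ∃ a : k, rhoR ρ f e = a • (1 : Module.End k (LinearMap.range f)) := by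
    intro e
    rw [hEl', hE', Subgroup.mem_subgroupOf, Subgroup.mem_subgroupOf]
    constructor
    · intro he
      refine ⟨h.ElE he, μ e, ?_⟩
      ext w
      rw [rhoR_apply]
      change ρ (e : X) (w : V) = μ e • (w : V)
      have hze : ρ (e : X) * f = μ e • f := rho_mul_idm h.ne0 h.mul _ he
      rw [← hfR w, ← Module.End.mul_apply, hze]
      rfl
    · rintro ⟨he, a, ha⟩
      refine h.of_scalar hf he (a := a) ?_
      ext v
      have h1 := congrArg Subtype.val (LinearMap.congr_fun ha ⟨f v, v, rfl⟩)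
      exact h1
  obtain ⟨x, hxP, hx1, C, hCE, hC, hCi⟩ := hD p q k (St ρ f) (LinearMap.range f) (rhoR ρ f) P' E' El'
    hpq hP.comap_subtype (by
      intro w hw
      apply Subtype.ext
      refine remark hpq ρ P hP hfix f (fun x _ => h.dich x) (w : V) (hfR w) ?_
      intro x hx hxf
      have h1 := hw ⟨x, hxf⟩ hx
      exact congrArg Subtype.val h1) (by
      intro g _ x hx
      exact h.En.conj_mem _ hx _) hcardE' hscal (by
      intro e he e' he'
      exact h.ZEl (h.comm _ he _ he')) (by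
      intro e he hc
      refine h.of_comm hf he fun e' he' => ?_
      ext v
      have h1 := LinearMap.congr_fun (hc ⟨e', hES he'⟩ he') ⟨f v, v, rfl⟩
      exact congrArg Subtype.val h1)
  refine ⟨x, hxP, x.2, ?_, C.map (St ρ f).subtype, ?_, ?_, ?_⟩
  · intro h1
    exact hx1 (Subtype.ext h1)
  · rintro _ ⟨m, hm, rfl⟩
    exact hCE hm
  · rintro _ ⟨m, hm, rfl⟩
    exact hC m hm
  · have h1 : E = E'.map (St ρ f).subtype := (Subgroup.map_subgroupOf_eq_of_le hES).symm
    have h2 : (C.map (St ρ f).subtype).relIndex E = C.relIndex E' := by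
      conv_lhs => rw [h1]
      exact Subgroup.relIndex_map_map_of_injective _ _ (Subgroup.subtype_injective _)
    rw [h2]
    refine hCi.trans (Nat.pow_le_pow_left ?_ 2)
    exact Nat.card_le_card_of_injective (fun y : P' => (⟨y.1.1, y.2⟩ : P)) (by
      intro y z hyz
      have h3 : ((y : St ρ f) : X) = ((z : St ρ f) : X) := congrArg (fun t : P => (t : X)) hyz
      exact Subtype.ext (Subtype.ext h3))

theorem sm_mono {X : Type} [Group X] {M N : Subgroup X} {y : X} {c c' : ℕ} (h : Sm M N y c)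
    (hc : c ≤ c') : Sm M N y c' := by
  obtain ⟨C, h1, h2, h3⟩ := h
  exact ⟨C, h1, h2, h3.trans hc⟩

/-- the hypothesis of (C1) for `K = ⟨y ∈ St | |[E/El, y]| ≤ p ^ (2 l + 2)⟩` -/
theorem hyp_C1 (hD : S_D) {p q l : ℕ} [hp : Fact p.Prime] [hq : Fact q.Prime] (hpq : p ≠ q)
    {k X V : Type} [Field k] [CharP k q] [Group X] [Finite X] [AddCommGroup V] [Module k V]
    [FiniteDimensional k V] (ρ : X →* Module.End k V) {E Z0 El : Subgroup X} {μ : X → k}
    (h : WD E Z0 El μ) (hf : idm ρ El μ ≠ 0) (hcardE : ((Nat.card E : ℕ) : k) ≠ 0)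
    (P : Subgroup X) (hP : IsPGroup p P) (hPc : Nat.card P ≤ p ^ (l + 1))
    (hfix : ∀ v : V, (∀ x ∈ P, ρ x v = v) → v = 0) (g : X) :
    ∃ x ∈ P, x ≠ 1 ∧ g⁻¹ * x * g ∈
      Subgroup.closure {y : X | y ∈ St ρ (idm ρ El μ) ∧ Sm E El y (p ^ (2 * l + 2))} := by
  set Pg : Subgroup X := P.map (MulAut.conj g⁻¹).toMonoidHom with hPg
  have hmem : ∀ y, y ∈ Pg → g * y * g⁻¹ ∈ P := by
    rintro _ ⟨x, hx, rfl⟩
    have : g * (MulAut.conj g⁻¹).toMonoidHom x * g⁻¹ = x := by simp [mul_assoc]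
    rw [this]; exact hx
  have hmem' : ∀ x ∈ P, g⁻¹ * x * g ∈ Pg := by
    intro x hx
    exact ⟨x, hx, by simp⟩
  have hcard : Nat.card Pg ≤ Nat.card P :=
    Nat.card_le_card_of_surjective _ ((MulAut.conj g⁻¹).toMonoidHom.subgroupMap_surjective P)
  obtain ⟨y, hy, hyS, hy1, hySm⟩ := st_D hD hpq ρ h hf hcardE Pg (hP.map _) (by
    intro v hv
    have h1 : ρ g v = 0 := by
      apply hfix
      intro x hx
      have h2 := hv _ (hmem' x hx)
      calc ρ x (ρ g v) = ρ g (ρ (g⁻¹ * x * g) v) := by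
            rw [← Module.End.mul_apply, ← Module.End.mul_apply, ← map_mul, ← map_mul]
            congr 2
            group
        _ = ρ g v := by rw [h2]
    rw [← rho_inv_apply ρ g v, h1, map_zero])
  refine ⟨g * y * g⁻¹, hmem y hy, ?_, ?_⟩
  · intro h1
    apply hy1
    have : y = g⁻¹ * (g * y * g⁻¹) * g := by group
    rw [this, h1]; group
  · have : g⁻¹ * (g * y * g⁻¹) * g = y := by group
    rw [this]
    refine Subgroup.subset_closure ⟨hyS, sm_mono hySm ?_⟩
    calc (Nat.card Pg) ^ 2 ≤ (p ^ (l + 1)) ^ 2 := Nat.pow_le_pow_left (hcard.trans hPc) 2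
      _ = p ^ (2 * l + 2) := by rw [← pow_mul]; congr 1; ring

end Pool.Agent.Helper627_Rae
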